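import Mathlib

open Finset Filter

namespace Pool.Agent.Results.MP_f9e5d9_nt.RatioLimit

/-- `R a` is the set of all values `a j / gcd (a i) (a j)`. -/
def R {n : ℕ} (a : Fin n → ℕ) : Finset ℕ :=
  Finset.univ.image (fun p : Fin n × Fin n => a p.2 / Nat.gcd (a p.1) (a p.2))

/-- `h n` is the minimum of `|R a|` over all increasing `n`-tuples `a` of positive integers. -/
noncomputable def h (n : ℕ) : ℕ :=
  sInf {k | ∃ a : Fin n → ℕ, StrictMono a ∧ (∀ i, 0 < a i) ∧ k = (R a).card}

/-! ### Exponent vectors -/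

section Vec

variable {ι : Type} [Fintype ι]

/-- Truncated differences. -/
noncomputable def T (A : Finset (ι → ℕ)) : Finset (ι → ℕ) :=
  by classical exact (A ×ˢ A).image (fun p i => p.2 i - p.1 i)

/-- Full differences. -/
noncomputable def Dz (A : Finset (ι → ℕ)) : Finset (ι → ℤ) :=
  by classical exact (A ×ˢ A).image (fun p i => (p.2 i : ℤ) - (p.1 i : ℤ))

lemma mem_T (A : Finset (ι → ℕ)) (v : ι → ℕ) :
    v ∈ T A ↔ ∃ f ∈ A, ∃ g ∈ A, v = fun i => g i - f i := by
  classical
  unfold T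
  simp only [Finset.mem_image, Finset.mem_product]
  constructor
  · rintro ⟨⟨f, g⟩, ⟨hf, hg⟩, rfl⟩
    exact ⟨f, hf, g, hg, rfl⟩
  · rintro ⟨f, hf, g, hg, rfl⟩
    exact ⟨⟨f, g⟩, ⟨hf, hg⟩, rfl⟩

lemma mem_Dz (A : Finset (ι → ℕ)) (v : ι → ℤ) :
    v ∈ Dz A ↔ ∃ f ∈ A, ∃ g ∈ A, v = fun i => (g i : ℤ) - (f i : ℤ) := by
  classical
  unfold Dz
  simp only [Finset.mem_image, Finset.mem_product]
  constructor
  · rintro ⟨⟨f, g⟩, ⟨hf, hg⟩, rfl⟩
    exact ⟨f, hf, g, hg, rfl⟩
  · rintro ⟨f, hf, g, hg, rfl⟩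
    exact ⟨⟨f, g⟩, ⟨hf, hg⟩, rfl⟩

/-- The integer with exponent vector `f`. -/
def N (p : ι → ℕ) (f : ι → ℕ) : ℕ := ∏ i, p i ^ f i

lemma N_mul (p : ι → ℕ) (f g : ι → ℕ) :
    N p g = N p (fun i => g i - f i) * N p (fun i => min (f i) (g i)) := by
  unfold N
  rw [← Finset.prod_mul_distrib]
  refine Finset.prod_congr rfl fun i _ => ?_
  rw [← pow_add]
  congr 1
  show g i = (g i - f i) + min (f i) (g i)
  omega

lemma N_coprime (p : ι → ℕ) (hp : ∀ i, (p i).Prime) (hinj : Function.Injective p)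
    (f g : ι → ℕ) :
    Nat.Coprime (N p (fun i => f i - g i)) (N p (fun i => g i - f i)) := by
  unfold N
  refine Nat.Coprime.prod_left fun i _ => Nat.Coprime.prod_right fun j _ => ?_
  by_cases hij : i = j
  · subst hij
    show Nat.Coprime (p i ^ (f i - g i)) (p i ^ (g i - f i))
    rcases le_total (f i) (g i) with h1 | h1
    · rw [Nat.sub_eq_zero_of_le h1]; simp
    · rw [Nat.sub_eq_zero_of_le h1]; simp
  · apply Nat.Coprime.pow
    rw [Nat.coprime_primes (hp i) (hp j)]
    exact fun h => hij (hinj h)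

lemma N_pos (p : ι → ℕ) (hp : ∀ i, (p i).Prime) (f : ι → ℕ) : 0 < N p f :=
  Finset.prod_pos fun i _ => pow_pos (hp i).pos _

lemma N_div (p : ι → ℕ) (hp : ∀ i, (p i).Prime) (hinj : Function.Injective p)
    (f g : ι → ℕ) :
    N p g / Nat.gcd (N p f) (N p g) = N p (fun i => g i - f i) := by
  have h1 := N_mul p f g
  have h2 := N_mul p g f
  have h3 : (fun i => min (g i) (f i)) = (fun i => min (f i) (g i)) := by
    funext i; exact min_comm _ _
  rw [h3] at h2
  have hc := N_coprime p hp hinj f g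
  have hg : Nat.gcd (N p f) (N p g) = N p (fun i => min (f i) (g i)) := by
    rw [h1, h2, Nat.gcd_mul_right, hc.gcd_eq_one, one_mul]
  rw [hg]
  conv_lhs => rw [h1]
  exact Nat.mul_div_cancel _ (N_pos p hp _)

lemma N_eq_one (p : ι → ℕ) (hp : ∀ i, (p i).Prime) (f : ι → ℕ) (hf : N p f = 1) (i : ι) :
    f i = 0 := by
  have hd : p i ^ f i ∣ N p f := Finset.dvd_prod_of_mem (fun i => p i ^ f i) (Finset.mem_univ i)
  rw [hf, Nat.dvd_one] at hd
  by_contra h0
  have := Nat.one_lt_pow h0 (hp i).one_lt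
  omega

lemma N_inj (p : ι → ℕ) (hp : ∀ i, (p i).Prime) (hinj : Function.Injective p) :
    Function.Injective (N p) := by
  intro f g hfg
  have h1 := N_div p hp hinj f g
  have h2 := N_div p hp hinj g f
  rw [hfg, Nat.gcd_self, Nat.div_self (N_pos p hp g)] at h1
  rw [hfg, Nat.gcd_self, Nat.div_self (N_pos p hp g)] at h2
  funext i
  have e1 : g i - f i = 0 := N_eq_one p hp _ h1.symm i
  have e2 : f i - g i = 0 := N_eq_one p hp _ h2.symm i
  omega

/-- A finite set of exponent vectors gives an upper bound for `h`. -/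
lemma h_le (A : Finset (ι → ℕ)) (n : ℕ) (hn : n ≤ A.card) : h n ≤ (T A).card := by
  classical
  obtain ⟨B, hBA, hBn⟩ := Finset.exists_subset_card_eq hn
  set p : ι → ℕ := fun i => Nat.nth Nat.Prime (Fintype.equivFin ι i) with hpdef
  have hp : ∀ i, (p i).Prime := fun i => Nat.prime_nth_prime _
  have hinj : Function.Injective p := by
    intro i j hij
    have := Nat.nth_injective Nat.infinite_setOfPred_prime hij
    exact (Fintype.equivFin ι).injective (Fin.ext this)
  set M : Finset ℕ := B.image (N p) with hM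
  have hMc : M.card = n := by
    rw [hM, Finset.card_image_of_injective _ (N_inj p hp hinj), hBn]
  have hmem : ∀ i : Fin n, ∃ f ∈ B, N p f = M.orderEmbOfFin hMc i := by
    intro i
    have := Finset.orderEmbOfFin_mem M hMc i
    exact Finset.mem_image.1 this
  refine le_trans (Nat.sInf_le ⟨fun i => M.orderEmbOfFin hMc i,
    (M.orderEmbOfFin hMc).strictMono, ?_, rfl⟩) ?_
  · intro i
    obtain ⟨f, _, hf⟩ := hmem i
    show 0 < M.orderEmbOfFin hMc i
    rw [← hf]
    exact N_pos p hp f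
  · have hsub : R (fun i => M.orderEmbOfFin hMc i) ⊆ (T A).image (N p) := by
      intro v hv
      unfold R at hv
      rw [Finset.mem_image] at hv
      obtain ⟨⟨i, j⟩, _, rfl⟩ := hv
      obtain ⟨f, hfB, hf⟩ := hmem i
      obtain ⟨g, hgB, hg⟩ := hmem j
      simp only
      rw [← hf, ← hg, N_div p hp hinj]
      exact Finset.mem_image_of_mem _ ((mem_T A _).2 ⟨f, hBA hfB, g, hBA hgB, rfl⟩)
    exact (Finset.card_le_card hsub).trans Finset.card_image_le

end Vec

/-! ### The doubling step -/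

lemma step {ι : Type} [Fintype ι] [Nonempty ι] (A : Finset (ι → ℕ)) (x : ℕ) :
    ∃ B : Finset (ι ⊕ ι → ℕ), B.card = x * A.card ^ 2 ∧
      (Dz B).card ≤ 2 * x * (Dz A).card ^ 2 ∧
      (T B).card ≤ (T A).card ^ 2 + 2 * (x * (Dz A).card) := by
  classical
  obtain ⟨L, hL⟩ : ∃ L : ℕ, ∀ f ∈ A, ∀ i, f i < L := by
    refine ⟨(∑ f ∈ A, ∑ i, f i) + 1, fun f hf i => ?_⟩
    have h1 : f i ≤ ∑ i, f i := Finset.single_le_sum (fun _ _ => Nat.zero_le _) (Finset.mem_univ i)
    have h2 : ∑ i, f i ≤ ∑ f ∈ A, ∑ i, f i :=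
      Finset.single_le_sum (f := fun f : ι → ℕ => ∑ i, f i) (fun _ _ => Nat.zero_le _) hf
    omega
  set F : ℕ × ((ι → ℕ) × (ι → ℕ)) → (ι ⊕ ι → ℕ) := fun q =>
    Sum.elim (fun i => q.1 * L + q.2.1 i) (fun i => (x - 1 - q.1) * L + q.2.2 i) with hF
  set S := (Finset.range x) ×ˢ (A ×ˢ A) with hS
  set B := S.image F with hB
  have hmemB : ∀ v ∈ B, ∃ s < x, ∃ a ∈ A, ∃ b ∈ A,
      v = Sum.elim (fun i => s * L + a i) (fun i => (x - 1 - s) * L + b i) := by
    intro v hv
    rw [hB, Finset.mem_image] at hv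
    obtain ⟨⟨s, a, b⟩, hs, rfl⟩ := hv
    rw [hS, Finset.mem_product, Finset.mem_product] at hs
    exact ⟨s, Finset.mem_range.1 hs.1, a, hs.2.1, b, hs.2.2, rfl⟩
  refine ⟨B, ?_, ?_, ?_⟩
  · rw [hB, Finset.card_image_of_injOn, hS, Finset.card_product, Finset.card_product,
      Finset.card_range, sq]
    rintro ⟨s, a, b⟩ h1 ⟨s', a', b'⟩ h2 h12
    rw [hS] at h1 h2
    simp only [Finset.coe_product, Set.mem_prod, Finset.mem_coe] at h1 h2
    obtain ⟨hs, ha, hb⟩ := h1
    obtain ⟨hs', ha', hb'⟩ := h2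
    have e1 : ∀ i, s * L + a i = s' * L + a' i := fun i => congrFun h12 (Sum.inl i)
    have e2 : ∀ i, (x - 1 - s) * L + b i = (x - 1 - s') * L + b' i :=
      fun i => congrFun h12 (Sum.inr i)
    obtain ⟨i0⟩ := ‹Nonempty ι›
    have hLpos : 0 < L := lt_of_le_of_lt (Nat.zero_le _) (hL a ha i0)
    have hss : s = s' := by
      have h3 := e1 i0
      have h4 : (s * L + a i0) / L = s := by
        rw [add_comm, Nat.add_mul_div_right _ _ hLpos, Nat.div_eq_of_lt (hL a ha i0), zero_add]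
      have h5 : (s' * L + a' i0) / L = s' := by
        rw [add_comm, Nat.add_mul_div_right _ _ hLpos, Nat.div_eq_of_lt (hL a' ha' i0), zero_add]
      rw [← h4, h3, h5]
    subst hss
    have haa : a = a' := funext fun i => Nat.add_left_cancel (e1 i)
    have hbb : b = b' := funext fun i => Nat.add_left_cancel (e2 i)
    rw [haa, hbb]
  · set G : ℤ × ((ι → ℤ) × (ι → ℤ)) → (ι ⊕ ι → ℤ) := fun q =>
      Sum.elim (fun i => q.1 * L + q.2.1 i) (fun i => -q.1 * L + q.2.2 i) with hG
    have hsub : Dz B ⊆ ((Finset.Ioo (-(x : ℤ)) x) ×ˢ (Dz A ×ˢ Dz A)).image G := by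
      intro v hv
      rw [mem_Dz] at hv
      obtain ⟨f, hf, g, hg, rfl⟩ := hv
      obtain ⟨s, hs, a, ha, b, hb, rfl⟩ := hmemB f hf
      obtain ⟨s', hs', a', ha', b', hb', rfl⟩ := hmemB g hg
      rw [Finset.mem_image]
      refine ⟨⟨(s' : ℤ) - s, fun i => (a' i : ℤ) - a i, fun i => (b' i : ℤ) - b i⟩, ?_, ?_⟩
      · simp only [Finset.mem_product, Finset.mem_Ioo]
        refine ⟨⟨by omega, by omega⟩, (mem_Dz A _).2 ⟨a, ha, a', ha', rfl⟩,
          (mem_Dz A _).2 ⟨b, hb, b', hb', rfl⟩⟩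
      · funext k
        rcases k with i | i
        · simp only [hG, Sum.elim_inl]
          push_cast
          ring
        · simp only [hG, Sum.elim_inr]
          have c1 : ((x - 1 - s : ℕ) : ℤ) = x - 1 - s := by omega
          have c2 : ((x - 1 - s' : ℕ) : ℤ) = x - 1 - s' := by omega
          push_cast [c1, c2]
          ring
    refine (Finset.card_le_card hsub).trans (Finset.card_image_le.trans ?_)
    rw [Finset.card_product, Finset.card_product, Int.card_Ioo, sq]
    refine Nat.mul_le_mul_right _ ?_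
    omega
  · set G1 : (ι → ℕ) × (ι → ℕ) → (ι ⊕ ι → ℕ) := fun q => Sum.elim q.1 q.2 with hG1
    set G2 : ℕ × (ι → ℤ) → (ι ⊕ ι → ℕ) := fun q =>
      Sum.elim (fun i => ((q.1 : ℤ) * L + q.2 i).toNat) (fun _ => 0) with hG2
    set G3 : ℕ × (ι → ℤ) → (ι ⊕ ι → ℕ) := fun q =>
      Sum.elim (fun _ => 0) (fun i => ((q.1 : ℤ) * L + q.2 i).toNat) with hG3
    have hsub : T B ⊆ (T A ×ˢ T A).image G1 ∪
        (((Finset.range x) ×ˢ Dz A).image G2 ∪ ((Finset.range x) ×ˢ Dz A).image G3) := by
      intro v hv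
      rw [mem_T] at hv
      obtain ⟨f, hf, g, hg, rfl⟩ := hv
      obtain ⟨s, hs, a, ha, b, hb, rfl⟩ := hmemB f hf
      obtain ⟨s', hs', a', ha', b', hb', rfl⟩ := hmemB g hg
      rw [Finset.mem_union, Finset.mem_union, Finset.mem_image, Finset.mem_image,
        Finset.mem_image]
      rcases lt_trichotomy s s' with hlt | heq | hgt
      · right; left
        refine ⟨⟨s' - s, fun i => (a' i : ℤ) - a i⟩, ?_, ?_⟩
        · rw [Finset.mem_product]
          exact ⟨Finset.mem_range.2 (by simp only; omega), (mem_Dz A _).2 ⟨a, ha, a', ha', rfl⟩⟩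
        · funext k
          obtain ⟨d, rfl⟩ := Nat.exists_eq_add_of_lt hlt
          rcases k with i | i
          · simp only [hG2, Sum.elim_inl]
            have c1 : ((s + d + 1 - s : ℕ) : ℤ) = d + 1 := by omega
            rw [c1]
            have h1 := hL a ha i
            have h2 : (s + d + 1) * L = s * L + (d + 1) * L := by ring
            have h3 : L ≤ (d + 1) * L := Nat.le_mul_of_pos_left _ (Nat.succ_pos d)
            have h4 : ((d : ℤ) + 1) * L = (((d + 1) * L : ℕ) : ℤ) := by push_cast; ring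
            rw [h2, h4]
            omega
          · simp only [hG2, Sum.elim_inr]
            have h1 := hL b' hb' i
            have h2 : (x - 1 - s) = (x - 1 - (s + d + 1)) + (d + 1) := by omega
            have h3 : L ≤ (d + 1) * L := Nat.le_mul_of_pos_left _ (Nat.succ_pos d)
            rw [h2, add_mul (x - 1 - (s + d + 1)) (d + 1) L]
            omega
      · left
        subst heq
        refine ⟨⟨fun i => a' i - a i, fun i => b' i - b i⟩, ?_, ?_⟩
        · rw [Finset.mem_product]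
          exact ⟨(mem_T A _).2 ⟨a, ha, a', ha', rfl⟩, (mem_T A _).2 ⟨b, hb, b', hb', rfl⟩⟩
        · funext k
          rcases k with i | i
          · simp only [hG1, Sum.elim_inl]
            omega
          · simp only [hG1, Sum.elim_inr]
            omega
      · right; right
        refine ⟨⟨s - s', fun i => (b' i : ℤ) - b i⟩, ?_, ?_⟩
        · rw [Finset.mem_product]
          exact ⟨Finset.mem_range.2 (by simp only; omega), (mem_Dz A _).2 ⟨b, hb, b', hb', rfl⟩⟩
        · funext k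
          obtain ⟨d, rfl⟩ := Nat.exists_eq_add_of_lt hgt
          rcases k with i | i
          · simp only [hG3, Sum.elim_inl]
            have h1 := hL a' ha' i
            have h2 : (s' + d + 1) * L = s' * L + (d + 1) * L := by ring
            have h3 : L ≤ (d + 1) * L := Nat.le_mul_of_pos_left _ (Nat.succ_pos d)
            rw [h2]
            omega
          · simp only [hG3, Sum.elim_inr]
            have c1 : ((s' + d + 1 - s' : ℕ) : ℤ) = d + 1 := by omega
            rw [c1]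
            have h1 := hL b hb i
            have h2 : (x - 1 - s') = (x - 1 - (s' + d + 1)) + (d + 1) := by omega
            have h3 : L ≤ (d + 1) * L := Nat.le_mul_of_pos_left _ (Nat.succ_pos d)
            have h4 : ((d : ℤ) + 1) * L = (((d + 1) * L : ℕ) : ℤ) := by push_cast; ring
            rw [h2, add_mul (x - 1 - (s' + d + 1)) (d + 1) L, h4]
            omega
    refine (Finset.card_le_card hsub).trans ((Finset.card_union_le _ _).trans ?_)
    refine Nat.add_le_add ?_ ((Finset.card_union_le _ _).trans ?_)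
    · refine Finset.card_image_le.trans ?_
      rw [Finset.card_product, sq]
    · have e : ((Finset.range x) ×ˢ Dz A).card = x * (Dz A).card := by
        rw [Finset.card_product, Finset.card_range]
      have e1 := Finset.card_image_le (s := (Finset.range x) ×ˢ Dz A) (f := G2)
      have e2 := Finset.card_image_le (s := (Finset.range x) ×ˢ Dz A) (f := G3)
      rw [e] at e1 e2
      omega

/-- The recursive construction. -/
lemma construct (t : ℕ) : ∃ (ι : Type) (_ : Fintype ι) (_ : Nonempty ι) (D K C : ℕ),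
    D + 1 = 2 * 2 ^ t ∧ ∀ x : ℕ, 0 < x → ∃ A : Finset (ι → ℕ), A.card = x ^ D ∧
      (Dz A).card ≤ K * x ^ D ∧ (T A).card ≤ C * x ^ (2 ^ t) := by
  classical
  induction t with
  | zero =>
    refine ⟨Unit, inferInstance, inferInstance, 1, 2, 1, by norm_num, fun x hx => ?_⟩
    refine ⟨(Finset.range x).image (fun s _ => s), ?_, ?_, ?_⟩
    · rw [Finset.card_image_of_injective, Finset.card_range, pow_one]
      intro s s' hss
      exact congrFun hss ()
    · have hsub : Dz ((Finset.range x).image (fun s (_ : Unit) => s)) ⊆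
          (Finset.Ioo (-(x : ℤ)) x).image (fun s _ => s) := by
        intro v hv
        rw [mem_Dz] at hv
        obtain ⟨f, hf, g, hg, rfl⟩ := hv
        rw [Finset.mem_image] at hf hg ⊢
        obtain ⟨s, hs, rfl⟩ := hf
        obtain ⟨s', hs', rfl⟩ := hg
        rw [Finset.mem_range] at hs hs'
        refine ⟨(s' : ℤ) - s, ?_, rfl⟩
        rw [Finset.mem_Ioo]
        constructor <;> omega
      refine (Finset.card_le_card hsub).trans (Finset.card_image_le.trans ?_)
      rw [Int.card_Ioo, pow_one]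
      omega
    · have hsub : T ((Finset.range x).image (fun s (_ : Unit) => s)) ⊆
          (Finset.range x).image (fun s _ => s) := by
        intro v hv
        rw [mem_T] at hv
        obtain ⟨f, hf, g, hg, rfl⟩ := hv
        rw [Finset.mem_image] at hf hg ⊢
        obtain ⟨s, hs, rfl⟩ := hf
        obtain ⟨s', hs', rfl⟩ := hg
        rw [Finset.mem_range] at hs hs'
        refine ⟨s' - s, ?_, rfl⟩
        rw [Finset.mem_range]
        omega
      refine (Finset.card_le_card hsub).trans (Finset.card_image_le.trans ?_)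
      rw [Finset.card_range]
      simp
  | succ t ih =>
    obtain ⟨ι, i1, i2, D, K, C, hD, hA⟩ := ih
    refine ⟨ι ⊕ ι, inferInstance, inferInstance, 2 * D + 1, 2 * K ^ 2, C ^ 2 + 2 * K, ?_,
      fun x hx => ?_⟩
    · rw [pow_succ]; omega
    obtain ⟨A, hc, hd, ht⟩ := hA x hx
    obtain ⟨B, hBc, hBd, hBt⟩ := step A x
    refine ⟨B, ?_, ?_, ?_⟩
    · rw [hBc, hc]
      ring
    · refine hBd.trans ?_
      calc 2 * x * (Dz A).card ^ 2 ≤ 2 * x * (K * x ^ D) ^ 2 := by gcongr
        _ = 2 * K ^ 2 * x ^ (2 * D + 1) := by ring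
    · refine hBt.trans ?_
      have e : x * x ^ D = x ^ (2 ^ (t + 1)) := by
        rw [← pow_succ', hD, pow_succ]
        congr 1
        ring
      calc (T A).card ^ 2 + 2 * (x * (Dz A).card)
          ≤ (C * x ^ (2 ^ t)) ^ 2 + 2 * (x * (K * x ^ D)) := by gcongr
        _ = C ^ 2 * x ^ (2 ^ (t + 1)) + 2 * K * (x * x ^ D) := by
            rw [pow_succ 2 t]; ring
        _ = (C ^ 2 + 2 * K) * x ^ (2 ^ (t + 1)) := by rw [e]; ring

/-! ### Lower bound -/

lemma lower_tuple {n : ℕ} (a : Fin n → ℕ) (ha : StrictMono a) (hpos : ∀ i, 0 < a i) :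
    n ≤ (R a).card ^ 2 := by
  classical
  rcases Nat.eq_zero_or_pos n with rfl | hn
  · exact Nat.zero_le _
  set i0 : Fin n := ⟨0, hn⟩
  have hR : ∀ i j, a j / Nat.gcd (a i) (a j) ∈ R a := fun i j => by
    unfold R
    exact Finset.mem_image_of_mem (fun p : Fin n × Fin n => a p.2 / Nat.gcd (a p.1) (a p.2))
      (Finset.mem_univ (i, j))
  have h1 : (Finset.univ : Finset (Fin n)).card ≤ ((R a) ×ˢ (R a)).card := by
    refine Finset.card_le_card_of_injOn
      (fun j => (a j / Nat.gcd (a i0) (a j), a i0 / Nat.gcd (a j) (a i0))) ?_ ?_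
    · intro j _
      simp only [Finset.coe_product, Set.mem_prod, Finset.mem_coe]
      exact ⟨hR _ _, hR _ _⟩
    · intro j _ k _ hjk
      simp only [Prod.mk.injEq] at hjk
      obtain ⟨e1, e2⟩ := hjk
      have hj := hpos j
      have hk := hpos k
      have h0 := hpos i0
      -- write g = gcd(a0, aj), g' = gcd(a0, ak)
      have gj : 0 < Nat.gcd (a i0) (a j) := Nat.gcd_pos_of_pos_left _ h0
      have gk : 0 < Nat.gcd (a i0) (a k) := Nat.gcd_pos_of_pos_left _ h0
      rw [Nat.gcd_comm (a j) (a i0), Nat.gcd_comm (a k) (a i0)] at e2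
      have f1 : Nat.gcd (a i0) (a j) * (a i0 / Nat.gcd (a i0) (a j)) = a i0 :=
        Nat.mul_div_cancel' (Nat.gcd_dvd_left _ _)
      have f2 : Nat.gcd (a i0) (a k) * (a i0 / Nat.gcd (a i0) (a k)) = a i0 :=
        Nat.mul_div_cancel' (Nat.gcd_dvd_left _ _)
      have f3 : Nat.gcd (a i0) (a j) * (a j / Nat.gcd (a i0) (a j)) = a j :=
        Nat.mul_div_cancel' (Nat.gcd_dvd_right _ _)
      have f4 : Nat.gcd (a i0) (a k) * (a k / Nat.gcd (a i0) (a k)) = a k :=
        Nat.mul_div_cancel' (Nat.gcd_dvd_right _ _)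
      have hq : 0 < a i0 / Nat.gcd (a i0) (a k) := by
        rcases Nat.eq_zero_or_pos (a i0 / Nat.gcd (a i0) (a k)) with h | h
        · rw [h] at f2; omega
        · exact h
      have hgg : Nat.gcd (a i0) (a j) = Nat.gcd (a i0) (a k) := by
        rw [e2] at f1
        exact Nat.eq_of_mul_eq_mul_right hq (f1.trans f2.symm)
      have : a j = a k := by
        rw [← f3, ← f4, e1, hgg]
      exact ha.injective this
  rw [Finset.card_univ, Fintype.card_fin, Finset.card_product] at h1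
  rw [sq]
  exact h1

lemma h_spec (n : ℕ) : ∃ a : Fin n → ℕ, StrictMono a ∧ (∀ i, 0 < a i) ∧ h n = (R a).card := by
  have hne : {k | ∃ a : Fin n → ℕ, StrictMono a ∧ (∀ i, 0 < a i) ∧ k = (R a).card}.Nonempty :=
    ⟨_, fun i => (i : ℕ) + 1, fun i j hij => by simpa using hij, fun i => Nat.succ_pos _, rfl⟩
  exact Nat.sInf_mem hne

lemma lower (n : ℕ) : n ≤ (h n) ^ 2 := by
  obtain ⟨a, ha, hpos, hh⟩ := h_spec n
  rw [hh]
  exact lower_tuple a ha hpos

/-! ### Upper bound and limit -/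

lemma upper (t : ℕ) : ∃ C : ℝ, 0 < C ∧ ∀ n : ℕ, 0 < n →
    (h n : ℝ) ≤ C * (n : ℝ) ^ ((2 ^ t : ℝ) / (2 * 2 ^ t - 1)) := by
  obtain ⟨ι, i1, i2, D, K, C, hD, hA⟩ := construct t
  have hDr : (D : ℝ) = 2 * 2 ^ t - 1 := by
    have : ((D + 1 : ℕ) : ℝ) = ((2 * 2 ^ t : ℕ) : ℝ) := by rw [hD]
    push_cast at this
    linarith
  have hDpos : 0 < D := by
    have : 1 ≤ 2 ^ t := Nat.one_le_two_pow
    omega
  have hDr0 : (0 : ℝ) < D := by exact_mod_cast hDpos
  refine ⟨((C : ℝ) + 1) * 2 ^ (2 ^ t), by positivity, fun n hn => ?_⟩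
  have hn1 : (1 : ℝ) ≤ n := by exact_mod_cast hn
  set y : ℝ := (n : ℝ) ^ (1 / (D : ℝ)) with hy
  have hy1 : 1 ≤ y := Real.one_le_rpow hn1 (by positivity)
  set x : ℕ := ⌈y⌉₊ with hx
  have hyx : y ≤ x := Nat.le_ceil y
  have hxy : (x : ℝ) ≤ 2 * y := by
    have := Nat.ceil_lt_add_one (zero_le_one.trans hy1)
    rw [← hx] at this
    linarith
  have hx0 : 0 < x := by
    have : (0 : ℝ) < x := by linarith
    exact_mod_cast this
  obtain ⟨A, hc, _, ht⟩ := hA x hx0
  have hyD : y ^ D = n := by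
    rw [hy, ← Real.rpow_natCast, ← Real.rpow_mul (by positivity), one_div,
      inv_mul_cancel₀ hDr0.ne', Real.rpow_one]
  have hcard : n ≤ A.card := by
    rw [hc]
    have : (n : ℝ) ≤ (x : ℝ) ^ D := by
      rw [← hyD]
      gcongr
    exact_mod_cast this
  have h1 := (h_le A n hcard).trans ht
  have h2 : (h n : ℝ) ≤ C * (x : ℝ) ^ (2 ^ t) := by exact_mod_cast h1
  have hypow : y ^ (2 ^ t) = (n : ℝ) ^ ((2 ^ t : ℝ) / (2 * 2 ^ t - 1)) := by
    rw [hy, ← Real.rpow_natCast, ← Real.rpow_mul (by positivity), ← hDr]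
    congr 1
    push_cast
    ring
  calc (h n : ℝ) ≤ C * (x : ℝ) ^ (2 ^ t) := h2
    _ ≤ (C + 1) * (2 * y) ^ (2 ^ t) := by gcongr; linarith
    _ = (C + 1) * 2 ^ (2 ^ t) * y ^ (2 ^ t) := by rw [mul_pow]; ring
    _ = _ := by rw [hypow]

theorem result : Tendsto (fun n : ℕ => Real.log (h n) / Real.log n) atTop (nhds (1 / 2)) := by
  have hlog : Tendsto (fun n : ℕ => Real.log (n : ℝ)) atTop atTop :=
    Real.tendsto_log_atTop.comp tendsto_natCast_atTop_atTop
  rw [Metric.tendsto_atTop]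
  intro ε hε
  -- choose t
  obtain ⟨t, ht⟩ : ∃ t : ℕ, (1 : ℝ) / ε < 2 ^ t := pow_unbounded_of_one_lt _ (by norm_num)
  obtain ⟨C, hC, hup⟩ := upper t
  have hev : ∀ᶠ n : ℕ in atTop, max 1 (2 * (|Real.log C| + 1) / ε) < Real.log (n : ℝ) :=
    hlog.eventually_gt_atTop _
  obtain ⟨n0, hn0⟩ := Filter.eventually_atTop.1 hev
  refine ⟨max n0 2, fun n hn => ?_⟩
  have hn1 : n0 ≤ n := (le_max_left _ _).trans hn
  have hn2 : 2 ≤ n := (le_max_right _ _).trans hn
  have hL := hn0 n hn1
  have hL1 : 1 < Real.log (n : ℝ) := (le_max_left _ _).trans_lt hL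
  have hL2 : 2 * (|Real.log C| + 1) / ε < Real.log (n : ℝ) := (le_max_right _ _).trans_lt hL
  have hL0 : 0 < Real.log (n : ℝ) := by linarith
  have hnpos : 0 < n := by omega
  have hnr : (0 : ℝ) < n := by exact_mod_cast hnpos
  have hhpos : 0 < h n := by
    rcases Nat.eq_zero_or_pos (h n) with h0 | h0
    · have := lower n
      rw [h0] at this
      omega
    · exact h0
  have hhr : (0 : ℝ) < h n := by exact_mod_cast hhpos
  -- lower bound
  have hlow : (1 / 2 : ℝ) ≤ Real.log (h n) / Real.log n := by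
    rw [le_div_iff₀ hL0]
    have h1 : (n : ℝ) ≤ (h n : ℝ) ^ 2 := by exact_mod_cast lower n
    have h2 := Real.log_le_log hnr h1
    rw [Real.log_pow] at h2
    push_cast at h2
    linarith
  -- upper bound
  have hupp : Real.log (h n) / Real.log n < 1 / 2 + ε := by
    rw [div_lt_iff₀ hL0]
    have h1 := hup n hnpos
    have h2 := Real.log_le_log hhr h1
    rw [Real.log_mul hC.ne' (by positivity), Real.log_rpow hnr] at h2
    have h3 : 2 * (|Real.log C| + 1) < ε * Real.log n := by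
      rw [div_lt_iff₀ hε] at hL2
      linarith
    have h4 := le_abs_self (Real.log C)
    have hE : (1 : ℝ) ≤ 2 ^ t := one_le_pow₀ (by norm_num)
    have h5 : (2 ^ t : ℝ) / (2 * 2 ^ t - 1) ≤ 1 / 2 + ε / 2 := by
      rw [div_le_iff₀ (by linarith)]
      have h6 : 1 < ε * 2 ^ t := by
        rw [div_lt_iff₀ hε] at ht
        linarith
      nlinarith
    have h7 : (2 ^ t : ℝ) / (2 * 2 ^ t - 1) * Real.log n ≤ (1 / 2 + ε / 2) * Real.log n :=
      mul_le_mul_of_nonneg_right h5 hL0.le
    nlinarith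
  rw [Real.dist_eq, abs_lt]
  constructor
  · linarith
  · linarith

end Pool.Agent.Results.MP_f9e5d9_nt.RatioLimit
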